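import Pool.Agent.Y33.SM.Stm

/-!
# Sparse scale monsters: torsion of the quotient (helper896, job SM-NICE of helper33)
-/

set_option autoImplicit false

namespace Pool.Agent.Y896.SM.Nice

open Pool.Agent.TH54.BU Pool.Agent.Y33.SM

section

variable {G : Type} [Group G]

theorem fin_conj {a g : G} (h : IsOfFinOrder a) : IsOfFinOrder (g * a * g⁻¹) := by
  rw [isOfFinOrder_iff_pow_eq_one] at h ⊢
  obtain ⟨k, hk, hk1⟩ := h
  exact ⟨k, hk, by rw [conj_pow, hk1]; group⟩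

theorem mk_mul_mem (M : Subgroup G) [M.Normal] (z : G) {n : G} (hn : n ∈ M) :
    ((z * n : G) : G ⧸ M) = (z : G ⧸ M) := by
  rw [QuotientGroup.mk_mul, (QuotientGroup.eq_one_iff n).2 hn, mul_one]

/-- an element killed by two and by an odd number is trivial -/
theorem one_of_two {q : G} {m : ℕ} (hm : Odd m) (h2 : q ^ 2 = 1) (hq : q ^ m = 1) : q = 1 := by
  obtain ⟨k, rfl⟩ := hm
  rw [pow_add, pow_mul, h2, one_pow, one_mul, pow_one] at hq
  exact hq

/-- torsion elements have odd order -/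
theorem odd_of {w : GH G} (nw : NW w) {a : G} (ha : IsOfFinOrder a) : Odd (orderOf a) := by
  rcases Nat.even_or_odd (orderOf a) with he | ho
  · exfalso
    obtain ⟨k, hk⟩ := he
    have hpos := ha.orderOf_pos
    have h1 : (a ^ k) ^ 2 = 1 := by
      rw [← pow_mul, mul_two, ← hk, pow_orderOf_eq_one]
    have h2 := nw.odd _ h1
    have h3 := orderOf_dvd_of_pow_eq_one h2
    have h4 := Nat.le_of_dvd (by omega) h3
    omega
  · exact ho

end

theorem t (hT : S_TOR) (hA : S_COMA) (hX : S_COMX) : S_NICE := by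
  intro G _ w κ n F L X M _ C
  have hn : 1 ≤ n := le_trans (by norm_num) C.hn
  have hxn : ∀ i : L.ι, (L.x i : G ⧸ M) ^ n = 1 := by
    intro i
    have := C.fil.rot i 1 1
    unfold LS.rt at this
    rw [one_mul, inv_one, mul_one, mul_one, zpow_natCast] at this
    rw [← QuotientGroup.mk_pow]
    exact (QuotientGroup.eq_one_iff _).2 this
  have htor : ∀ q : G ⧸ M, IsOfFinOrder q → ∃ a : G, (a : G ⧸ M) = q ∧
      (IsOfFinOrder a ∨ ∃ (g : G) (i : L.ι) (j : ℤ), a = g * L.x i ^ j * g⁻¹) := by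
    intro q hq
    obtain ⟨z, rfl⟩ := QuotientGroup.mk_surjective q
    obtain ⟨m, hm, hm1⟩ := isOfFinOrder_iff_pow_eq_one.1 hq
    rw [← QuotientGroup.mk_pow, QuotientGroup.eq_one_iff] at hm1
    obtain ⟨k, hk, h⟩ := hT G w κ n F L X M C z m hm hm1
    exact ⟨z * k, mk_mul_mem M z hk, h⟩
  have hconj : ∀ (g : G) (i : L.ι) (j : ℤ), ((g * L.x i ^ j * g⁻¹ : G) : G ⧸ M) =
      (g : G ⧸ M) * (L.x i : G ⧸ M) ^ j * (g : G ⧸ M)⁻¹ := fun _ _ _ => rfl
  refine ⟨?_, ?_⟩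
  · intro q h2
    have hq : IsOfFinOrder q := isOfFinOrder_iff_pow_eq_one.2 ⟨2, by norm_num, h2⟩
    obtain ⟨a, rfl, ha | ⟨g, i, j, hj⟩⟩ := htor q hq
    · refine one_of_two (odd_of C.nw ha) h2 ?_
      rw [← QuotientGroup.mk_pow, pow_orderOf_eq_one]
      rfl
    · refine one_of_two C.odd h2 ?_
      rw [hj, hconj, conj_pow, ← zpow_natCast, ← zpow_mul, mul_comm j, zpow_mul, zpow_natCast,
        hxn, one_zpow]
      group
  · intro q q' hq1 hq hqq
    obtain ⟨g', rfl⟩ := QuotientGroup.mk_surjective q'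
    obtain ⟨a, rfl, ha | ⟨g, i, j, hj⟩⟩ := htor q hq
    · have hane : a ≠ 1 := by
        rintro rfl
        exact hq1 rfl
      have hmem : a * g' * a⁻¹ * g'⁻¹ ∈ M := by
        rw [← QuotientGroup.eq_one_iff]
        have e : ((a * g' * a⁻¹ * g'⁻¹ : G) : G ⧸ M) =
            (a : G ⧸ M) * (g' : G ⧸ M) * (a : G ⧸ M)⁻¹ * (g' : G ⧸ M)⁻¹ := rfl
        rw [e, hqq]
        group
      obtain ⟨k, hk, hc⟩ := hA G w κ n F L X M C a g' ha hmem
      have hfin : IsOfFinOrder (k * g') := C.nw.com a (k * g') hane ha hc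
      have e3 : (g' : G ⧸ M) = QuotientGroup.mk' M (k * g') := by
        have e5 : QuotientGroup.mk' M (k * g') = (k : G ⧸ M) * (g' : G ⧸ M) := rfl
        rw [e5, (QuotientGroup.eq_one_iff k).2 hk, one_mul]
      rw [e3]
      exact MonoidHom.isOfFinOrder _ hfin
    · set h := g⁻¹ * g' * g with hh
      have hnj : ¬ (n : ℤ) ∣ j := by
        rintro ⟨k, hk⟩
        apply hq1
        rw [hj, hconj, hk, zpow_mul, zpow_natCast, hxn, one_zpow]
        group
      have hmem : L.x i ^ j * h * (L.x i ^ j)⁻¹ * h⁻¹ ∈ M := by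
        rw [← QuotientGroup.eq_one_iff]
        have e1 : L.x i ^ j * h * (L.x i ^ j)⁻¹ * h⁻¹ = g⁻¹ * (a * g' * a⁻¹ * g'⁻¹) * g := by
          rw [hj, hh]
          group
        rw [e1]
        have e2 : ((g⁻¹ * (a * g' * a⁻¹ * g'⁻¹) * g : G) : G ⧸ M) = (g : G ⧸ M)⁻¹ *
            ((a : G ⧸ M) * (g' : G ⧸ M) * (a : G ⧸ M)⁻¹ * (g' : G ⧸ M)⁻¹) * (g : G ⧸ M) := rfl
        rw [e2, hqq]
        group
      obtain ⟨k, hk, l, hl⟩ := hX G w κ n F L X M C i j h hnj hmem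
      have e3 : (h : G ⧸ M) = (L.x i : G ⧸ M) ^ l := by
        rw [hl, QuotientGroup.mk_mul, (QuotientGroup.eq_one_iff k).2 hk, one_mul,
          QuotientGroup.mk_zpow]
      have hfinx : IsOfFinOrder (L.x i : G ⧸ M) :=
        isOfFinOrder_iff_pow_eq_one.2 ⟨n, by omega, hxn i⟩
      have hfin2 : IsOfFinOrder (h : G ⧸ M) := by
        rw [e3]
        exact hfinx.zpow
      have e4 : (g' : G ⧸ M) = (g : G ⧸ M) * (h : G ⧸ M) * (g : G ⧸ M)⁻¹ := by
        have e5 : (g : G ⧸ M) * (h : G ⧸ M) * (g : G ⧸ M)⁻¹ = ((g * h * g⁻¹ : G) : G ⧸ M) := rfl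
        rw [e5, hh]
        congr 1
        group
      rw [e4]
      exact fin_conj hfin2

end Pool.Agent.Y896.SM.Nice
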